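import Pool.Agent.Work.MP_adbdc7_gt.Main

/-!
A torsion-free cocompact lattice in `SL₂(ℝ) × SL₂(ℝ)`, acting on the product of two hyperbolic
planes, with an element which is not rank one although its stable centraliser is infinite cyclic.

The lattice is the congruence subgroup of level `3` of the norm one group of the order
`R + R i + R j + R i j`, `R = ℤ[√2]`, `i² = (1 + √2) i - 1`, `j² = 7`, `j i = (1 + √2 - i) j`; the
element is `i ^ 5`, hyperbolic in the first and elliptic of infinite order in the second factor.
-/

open scoped MatrixGroups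

namespace Pool.Agent.Results.MP_adbdc7_gt.MixedElement

open Pool.Agent.Work.MP_adbdc7_gt.Spec

theorem result : ∃ Γ : Subgroup (SL(2, ℝ) × SL(2, ℝ)), IsUniformLattice Γ ∧
    ∃ g : Γ, g ≠ 1 ∧ ¬ IsRankOne (g : SL(2, ℝ) × SL(2, ℝ)) ∧
      Nonempty (stableCentralizer g ≃* Multiplicative ℤ) :=
  Pool.Agent.Work.MP_adbdc7_gt.main

end Pool.Agent.Results.MP_adbdc7_gt.MixedElement
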